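import Pool.Agent.Helper98K9.CP.St2
import Pool.Agent.Helper56K9.CP.Col
import Pool.Agent.Helper98K9.CP.Basic

set_option autoImplicit false

/-! # [NICE], [NGOOD], [RSC], [GINF] -/

namespace Pool.Agent.Helper98K9.CP

open MeasureTheory ProbabilityTheory Filter
open scoped ENNReal NNReal

namespace NiceL

/-- the steps depend only on the slab below `z` -/
theorem St_dsl {b K R : ℕ} {ξ ξ' : Cf} {z z' w : Vt} (n : ℕ) (hz : (par b)^[n] z' = z)
    (hw : (par b)^[K + 1] w = z')
    (h : ∀ e ∈ dsl b R z, ξ e = true → ξ' e = true) (h1 : St b K R ξ z' w) :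
    St b K R ξ' z' w := by
  obtain ⟨h2, h3⟩ := h1
  refine ⟨Cn.mono le_rfl (fun e he => h e ?_) h2, h _ ?_ h3⟩
  · obtain ⟨⟨⟨j, hj, hj2⟩, h5, h6⟩, ⟨j', hj', hj2'⟩, h5', h6'⟩ := he
    refine ⟨⟨by linarith, by linarith, ?_⟩, n + j, ?_, ?_⟩
    · intro h7
      have h8 : (hd b e).2 = e.1.2 + 1 := by simp [hd, h7]
      rw [h8] at h6'
      linarith
    · rw [Function.iterate_add_apply, hj2, hz]
    · intro h7
      have h8 : (hd b e).1 = par b e.1.1 := by simp [hd, h7]
      rw [h8, ← Function.iterate_succ_apply, iter_par] at hj2'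
      rw [iter_par] at hj2
      have h9 := congrArg Prod.fst hj2'
      have h10 := congrArg Prod.fst hj2
      simp only at h9 h10
      push_cast at h9 h10
      omega
  · refine ⟨⟨?_, ?_, ?_⟩, n + (K + 1), ?_, fun _ => by omega⟩
    · simp
    · simp
    · simp
    · rw [Function.iterate_add_apply]
      exact (congrArg _ hw).trans hz

theorem Rs_dsl {b K R : ℕ} {ξ ξ' : Cf} {z w : Vt} {i : ℕ}
    (h : ∀ e ∈ dsl b R z, ξ e = true → ξ' e = true) (h1 : w ∈ Rs b K R ξ i z) :
    w ∈ Rs b K R ξ' i z := by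
  refine ⟨h1.1, fun t ht => St_dsl ((K + 1) * (i - (t + 1))) ?_ ?_ h (h1.2 t ht)⟩
  · rw [← Function.iterate_add_apply, ← mul_add]
    have : i - (t + 1) + (t + 1) = i := by omega
    rw [this]
    exact h1.1
  · rw [← Function.iterate_add_apply]
    have : K + 1 + (K + 1) * t = (K + 1) * (t + 1) := by ring
    rw [this]

theorem Rs_fin {b K R : ℕ} (hb : 2 ≤ b) (ξ : Cf) (i : ℕ) (z : Vt) : (Rs b K R ξ i z).Finite :=
  (Helper56K9.CP.desc_finite (by omega : 1 ≤ b) ((K + 1) * i) z).subset fun _ hw => hw.1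

theorem Rel_dsl {b K R : ℕ} (hb : 2 ≤ b) {c m : ℝ} {ξ ξ' η η' : Cf} {z : Vt} {i : ℕ}
    (h : ∀ e ∈ dsl b R z, ξ e = true → ξ' e = true)
    (h' : ∀ e ∈ dsl b R z, η e = true → η' e = true) (h1 : (ξ, η) ∈ Rel b K R c m i z) :
    (ξ', η') ∈ Rel b K R c m i z := by
  refine le_trans (a := c * m ^ i) h1 ?_
  have h2 : Rs b K R ξ i z ∩ Rs b K R η i z ⊆ Rs b K R ξ' i z ∩ Rs b K R η' i z :=
    fun w hw => ⟨Rs_dsl h hw.1, Rs_dsl h' hw.2⟩
  exact_mod_cast Set.ncard_le_ncard h2 ((Rs_fin hb ξ' i z).inter_of_left _)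

theorem meas_Rel (hM : S_MEAS) {b : ℕ} (hb : 2 ≤ b) (K R : ℕ) (c m : ℝ) (z : Vt) (i : ℕ) :
    MeasurableSet (Rel b K R c m i z) := by
  classical
  set F : Finset Vt := (Helper56K9.CP.desc_finite (by omega : 1 ≤ b) ((K + 1) * i) z).toFinset
    with hF
  have h1 : Rel b K R c m i z = ⋃ S ∈ F.powerset.filter (fun S => c * m ^ i ≤ (S.card : ℝ)),
      ⋂ w ∈ S, {q : Cf × Cf | w ∈ Rs b K R q.1 i z ∧ w ∈ Rs b K R q.2 i z} := by
    ext q
    simp only [Set.mem_iUnion, Set.mem_iInter, Finset.mem_filter, Finset.mem_powerset]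
    constructor
    · intro hq
      have hfin := (Rs_fin (K := K) (R := R) hb q.1 i z).inter_of_left (Rs b K R q.2 i z)
      refine ⟨hfin.toFinset, ⟨?_, ?_⟩, ?_⟩
      · intro w hw
        rw [Set.Finite.mem_toFinset] at hw
        rw [hF, Set.Finite.mem_toFinset]
        exact hw.1.1
      · rw [← Set.ncard_eq_toFinset_card _ hfin]
        exact hq
      · intro w hw
        rw [Set.Finite.mem_toFinset] at hw
        exact hw
    · rintro ⟨S, ⟨_, h2⟩, h3⟩
      refine le_trans h2 ?_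
      have h4 : (S : Set Vt) ⊆ Rs b K R q.1 i z ∩ Rs b K R q.2 i z := fun w hw => h3 w hw
      have h5 := Set.ncard_le_ncard h4 ((Rs_fin hb q.1 i z).inter_of_left _)
      rw [Set.ncard_coe_finset] at h5
      exact_mod_cast h5
  rw [h1]
  refine Finset.measurableSet_biUnion _ fun S _ => Finset.measurableSet_biInter _ fun w _ => ?_
  exact (measurable_fst (Helper56K9.CP.meas_Rs hM b K R i z w)).inter
    (measurable_snd (Helper56K9.CP.meas_Rs hM b K R i z w))

end NiceL

open NiceL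

/-- [NICE] -/
theorem nice (hM : S_MEAS) : S_NICE := by
  intro b hb K R c m z
  refine ⟨fun i => ⟨meas_Rel hM hb K R c m z i, ?_, ?_, ?_⟩, ?_, ?_, ?_, ?_⟩
  · intro ξ ω ω' h h1
    exact Rel_dsl hb (fun e _ h2 => h2) (fun e _ h2 => h e h2) h1
  · intro ξ ω ω' h h1
    exact Rel_dsl hb (fun e _ h2 => h e h2) (fun e _ h2 => h2) h1
  · intro ξ₁ ξ₂ η₁ η₂ h1 h2 h3
    exact Rel_dsl hb (fun e he h4 => (h1 e he) ▸ h4) (fun e he h4 => (h2 e he) ▸ h4) h3
  · have h1 : RelI b K R c m z = ⋂ n : ℕ, ⋃ i : ℕ, ⋃ _ : n ≤ i, Rel b K R c m i z := by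
      ext q
      simp only [RelI, Set.mem_ofPred_eq, frequently_atTop, Set.mem_iInter, Set.mem_iUnion,
        exists_prop]
    rw [h1]
    exact MeasurableSet.iInter fun n => MeasurableSet.iUnion fun i => MeasurableSet.iUnion fun _ =>
      meas_Rel hM hb K R c m z i
  · intro ξ ω ω' h h1
    exact Frequently.mono h1 fun i h3 => Rel_dsl hb (fun e _ h2 => h2) (fun e _ h2 => h e h2) h3
  · intro ξ ω ω' h h1
    exact Frequently.mono h1 fun i h3 => Rel_dsl hb (fun e _ h2 => h e h2) (fun e _ h2 => h2) h3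
  · intro ξ₁ ξ₂ η₁ η₂ h1 h2 h3
    exact Frequently.mono h3 fun i h5 =>
      Rel_dsl hb (fun e he h4 => (h1 e he) ▸ h4) (fun e he h4 => (h2 e he) ▸ h4) h5

/-- [NGOOD] -/
theorem ngood : S_NGOOD := by
  intro p hp a D U hU
  obtain ⟨h1, h2, h3, h4⟩ := hU
  refine ⟨?_, ?_, ?_⟩
  · have h5 : Measurable fun ξ : Cf => (PP Ed p hp).real {ξ' | (ξ, ξ') ∈ U} :=
      (measurable_measure_prodMk_left h1).ennreal_toReal
    exact h5 measurableSet_Ici
  · intro ξ ξ' h5 h6
    refine le_trans (a := a) h6 (measureReal_mono ?_ (measure_ne_top _ _))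
    intro η hη
    exact h3 η ξ ξ' h5 hη
  · intro ξ ξ' h5 h6
    refine le_trans (a := a) h6 (measureReal_mono ?_ (measure_ne_top _ _))
    intro η hη
    exact h4 ξ η ξ' η h5 (fun _ _ => rfl) hη

/-- [RSC] -/
theorem rsc : S_RSC := by
  intro b K R ω i z w h lo hlo hw
  obtain ⟨hw1, hw2⟩ := hw
  set W := Fz b ((K + 1) * i) z lo with hW
  have key : ∀ t ≤ i, Cn b ω W ((par b)^[(K + 1) * t] w, h) (w, h) := by
    intro t
    induction t with
    | zero => intro _; exact Cn.refl _ _ _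
    | succ t ih =>
      intro ht
      refine Cn.trans ?_ (ih (by omega))
      obtain ⟨h1, h2⟩ := hw2 t (by omega)
      set u := (par b)^[(K + 1) * t] w with hu
      have hu2 : (par b)^[(K + 1) * (t + 1)] w = (par b)^[K + 1] u := by
        rw [hu, ← Function.iterate_add_apply]
        have : K + 1 + (K + 1) * t = (K + 1) * (t + 1) := by ring
        rw [this]
      have hu3 : (par b)^[(K + 1) * (i - (t + 1))] ((par b)^[(K + 1) * (t + 1)] w) = z := by
        rw [← Function.iterate_add_apply, ← mul_add]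
        have : i - (t + 1) + (t + 1) = i := by omega
        rw [this]
        exact hw1
      have hle : (K + 1) * (i - (t + 1)) + (K + 1) ≤ (K + 1) * i := by
        have : i - (t + 1) + 1 ≤ i := by omega
        calc (K + 1) * (i - (t + 1)) + (K + 1) = (K + 1) * (i - (t + 1) + 1) := by ring
          _ ≤ (K + 1) * i := Nat.mul_le_mul_left _ this
      set v := (par b)^[(K + 1) * (t + 1)] w with hv
      -- the connection in the block
      have h3 : Cn b ω W (v, h) (par b u, h) := by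
        rw [Cn_sh] at h1
        simp only [zero_add] at h1
        refine Cn.mono ?_ (fun _ _ h4 => h4) h1
        rintro y ⟨y', ⟨⟨j, hj, hj2⟩, h5, h6⟩, rfl⟩
        refine ⟨⟨(K + 1) * (i - (t + 1)) + j, by omega, ?_⟩, ?_⟩
        · rw [Function.iterate_add_apply]
          change (par b)^[_] ((par b)^[j] y'.1) = z
          rw [hj2, hu3]
        · change lo ≤ y'.2 + h
          linarith
      refine Cn.trans h3 (Cn.symm ?_)
      have h4 : ω ((u, h), false) = true := by
        have : sh h ω ((u, 0), false) = true := h2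
        simpa [sh] using this
      have h5 : (((u, h), false) : Ed) ∈ edg b W := by
        refine ⟨⟨⟨(K + 1) * (i - (t + 1)) + (K + 1), hle, ?_⟩, ?_⟩, ⟨⟨(K + 1) * (i - (t + 1)) + K,
          by omega, ?_⟩, ?_⟩⟩
        · change (par b)^[_] u = z
          rw [Function.iterate_add_apply, ← hu2, hu3]
        · change lo ≤ h
          have : (0 : ℤ) ≤ R := Int.natCast_nonneg R
          linarith
        · change (par b)^[_] (par b u) = z
          rw [← Function.iterate_succ_apply, ← hu3, hu2,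
            ← Function.iterate_add_apply (m := (K + 1) * (i - (t + 1))) (n := K + 1)]
          rfl
        · change lo ≤ h
          have : (0 : ℤ) ≤ R := Int.natCast_nonneg R
          linarith
      exact Cn.edge h5 h4
  have := key i le_rfl
  rwa [hw1] at this

/-- [GINF] -/
theorem ginf : S_GINF := by
  intro b K R p hp a c m hb ha hc hm z h ω hG
  have hne : {ξ' : Cf | (sh h ω, ξ') ∈ RelI b K R c m z}.Nonempty := by
    by_contra hn
    rw [Set.not_nonempty_iff_eq_empty] at hn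
    have : a ≤ (PP Ed p hp).real {ξ' : Cf | (sh h ω, ξ') ∈ RelI b K R c m z} := hG
    rw [hn] at this
    simp at this
    linarith
  obtain ⟨ξ', hξ'⟩ := hne
  have hfr : ∃ᶠ i in atTop, (Rs b K R (sh h ω) i z).Nonempty := by
    refine Frequently.mono hξ' fun i hi => ?_
    have h1 : c * m ^ i ≤ ((Rs b K R (sh h ω) i z ∩ Rs b K R ξ' i z).ncard : ℝ) := hi
    have h2 : 0 < c * m ^ i := mul_pos hc (pow_pos hm i)
    have h3 : (0 : ℝ) < ((Rs b K R (sh h ω) i z ∩ Rs b K R ξ' i z).ncard : ℝ) := lt_of_lt_of_le h2 h1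
    have h4 : (Rs b K R (sh h ω) i z ∩ Rs b K R ξ' i z).ncard ≠ 0 := by
      intro h5
      rw [h5] at h3
      simp at h3
    exact (Set.nonempty_of_ncard_ne_zero h4).mono Set.inter_subset_left
  -- levels of the cluster
  have himg : (Set.image (fun y : Vx => y.1.1) (cl b ω {y : Vx | h - R ≤ y.2} (z, h))).Infinite := by
    refine Set.infinite_of_not_bddBelow ?_
    rintro ⟨B, hB⟩
    obtain ⟨i, hi, w, hw⟩ := (frequently_atTop.1 hfr) ((z.1 - B).toNat + 1)
    have h1 := rsc b K R ω i z w h (h - R) le_rfl hw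
    have h2 : (w, h) ∈ cl b ω {y : Vx | h - R ≤ y.2} (z, h) :=
      Cn.mono (fun y hy => hy.2) (fun _ _ h3 => h3) h1
    have h3 := hB (Set.mem_image_of_mem (fun y : Vx => y.1.1) h2)
    have h4 := hw.1
    rw [iter_par] at h4
    have h5 := congrArg Prod.fst h4
    simp only at h5 h3
    push_cast at h5
    have h6 : (i : ℤ) ≤ (K + 1) * i := by nlinarith [Int.natCast_nonneg K, Int.natCast_nonneg i]
    have h7 : z.1 - B ≤ (z.1 - B).toNat := Int.self_le_toNat _
    have h8 : (((z.1 - B).toNat + 1 : ℕ) : ℤ) ≤ i := by exact_mod_cast hi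
    push_cast at h8
    linarith
  exact himg.of_image _

/-- [GWI] -/
theorem gwi (hM : S_MEAS) (hG : S_GW) : S_GWI := by
  intro b hb K R p hp hmu
  obtain ⟨c, hc, h⟩ := hG b hb K R p hp hmu
  refine ⟨c, hc, fun z => ?_⟩
  set μ := (PP Ed p hp).prod (PP Ed p hp) with hμ
  set m := mu b K R p hp with hm
  set U : ℕ → Set (Cf × Cf) := fun n => ⋃ i : ℕ, ⋃ _ : n ≤ i, Rel b K R c m i z with hU
  have hUm : ∀ n, MeasurableSet (U n) := fun n => MeasurableSet.iUnion fun i =>
    MeasurableSet.iUnion fun _ => meas_Rel hM hb K R c m z i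
  have h1 : RelI b K R c m z = ⋂ n : ℕ, U n := by
    ext q
    simp only [RelI, Set.mem_ofPred_eq, frequently_atTop, Set.mem_iInter, Set.mem_iUnion, hU,
      exists_prop]
  have hanti : Antitone U := by
    intro n n' hn q hq
    simp only [hU, Set.mem_iUnion, exists_prop] at hq ⊢
    obtain ⟨i, hi, h2⟩ := hq
    exact ⟨i, hn.trans hi, h2⟩
  have hlim := tendsto_measure_iInter_atTop (μ := μ) (fun n => (hUm n).nullMeasurableSet) hanti
    ⟨0, measure_ne_top _ _⟩
  rw [← h1] at hlim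
  have h2 : ∀ n, ENNReal.ofReal c ≤ μ (U n) := by
    intro n
    have h3 : Rel b K R c m n z ⊆ U n := by
      intro q hq
      simp only [hU, Set.mem_iUnion, exists_prop]
      exact ⟨n, le_rfl, hq⟩
    refine le_trans ?_ (measure_mono h3)
    have := h n z
    rw [Measure.real] at this
    exact (ENNReal.ofReal_le_iff_le_toReal (measure_ne_top _ _)).2 this
  have h4 : ENNReal.ofReal c ≤ μ (RelI b K R c m z) := ge_of_tendsto' hlim h2
  rw [Measure.real]
  exact (ENNReal.ofReal_le_iff_le_toReal (measure_ne_top _ _)).1 h4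

/-- [SLABS] -/
theorem slabs (hI : S_IND) (hR : S_REIDX) : S_SLABS := by
  classical
  intro R p hp A hA hD H hH Q
  have hm : ∀ h : ℤ, MeasurableSet {ω : Cf | sh h ω ∉ A} := fun h =>
    (Helper56K9.CP.meas_sh h hA).compl
  have hte : ∀ h : ℤ, Function.Injective (fun e : Ed => (((e.1.1, e.1.2 + h), e.2) : Ed)) := by
    rintro h ⟨⟨x, s⟩, c⟩ ⟨⟨x', s'⟩, c'⟩ h1
    simp only [Prod.mk.injEq] at h1
    obtain ⟨⟨rfl, h2⟩, rfl⟩ := h1
    have : s = s' := by linarith
    rw [this]
  have hP : ∀ h : ℤ, (PP Ed p hp).real {ω : Cf | sh h ω ∉ A} = 1 - (PP Ed p hp).real A := by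
    intro h
    have h1 := hR Ed Ed p hp _ (hte h)
    have h2 := h1.measure_preimage (hA.compl).nullMeasurableSet
    have h3 : (PP Ed p hp).real {ω : Cf | sh h ω ∉ A} = (PP Ed p hp).real Aᶜ := by
      rw [Measure.real, Measure.real, ← h2]
      rfl
    rw [h3, probReal_compl_eq_one_sub hA]
  have hdep : ∀ h : ℤ, Dep {e : Ed | h - R ≤ e.1.2 ∧ e.1.2 ≤ h + R} {ω : Cf | sh h ω ∉ A} := by
    intro h ω ω' h1 h2 h3
    refine h2 (hD (sh h ω') (sh h ω) (fun e he => ?_) h3)
    refine (h1 _ ⟨?_, ?_⟩).symm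
    · change h - R ≤ e.1.2 + h
      linarith [he.1]
    · change e.1.2 + h ≤ h + R
      linarith [he.2.1]
  have key : (PP Ed p hp).real {ω | ∀ q ∈ Q, sh (q * H) ω ∉ A} =
      (1 - (PP Ed p hp).real A) ^ Q.card := by
    induction Q using Finset.induction_on with
    | empty => simp
    | insert a s ha ih =>
      have h1 : {ω : Cf | ∀ q ∈ insert a s, sh (q * H) ω ∉ A} =
          {ω : Cf | sh (a * H) ω ∉ A} ∩ {ω : Cf | ∀ q ∈ s, sh (q * H) ω ∉ A} := by
        ext ω
        simp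
      rw [h1, hI Ed p hp {e : Ed | a * H - R ≤ e.1.2 ∧ e.1.2 ≤ a * H + R}
        (⋃ q ∈ s, {e : Ed | q * H - R ≤ e.1.2 ∧ e.1.2 ≤ q * H + R}) _ _ ?_ (hdep _) ?_ (hm _) ?_,
        ih, hP, Finset.card_insert_of_notMem ha, pow_succ, mul_comm]
      · rw [Set.disjoint_left]
        rintro e he he'
        simp only [Set.mem_iUnion, exists_prop] at he'
        obtain ⟨q, hq, he'⟩ := he'
        have hne : a ≠ q := fun h => ha (h ▸ hq)
        obtain ⟨h2, h3⟩ := he
        obtain ⟨h4, h5⟩ := he'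
        have h6 : (0 : ℤ) ≤ R := Int.natCast_nonneg R
        rcases lt_or_gt_of_ne hne with h | h
        · have : a + 1 ≤ q := h
          nlinarith
        · have : q + 1 ≤ a := h
          nlinarith
      · intro ω ω' h2 h3 q hq
        exact hdep (q * H) ω ω' (fun e he => h2 e (Set.mem_biUnion hq he)) (h3 q hq)
      · have h4 : {ω : Cf | ∀ q ∈ s, sh (q * H) ω ∉ A} = ⋂ q ∈ s, {ω : Cf | sh (q * H) ω ∉ A} := by
          ext ω
          simp
        rw [h4]
        exact Finset.measurableSet_biInter _ fun q _ => hm _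
  exact key.le

end Pool.Agent.Helper98K9.CP
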